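import Pool.Agent.H579.R.Dsp5R
import Pool.Agent.H579.R.Reg

/-!
# Every large `n`, every set of `k`: `6 k - 1 + h_0` and `p_{n - k} + h_1` prime, for almost all pairs of shifts in the
# residue classes of moduli up to `n ^ (2 / 3 - ρ)`

Q1 asks, for every `n > 2`, for a decomposition `n = k + m` for which `6 k - 1` and `6 k + 1` are prime and `p_m` and
`p_m + 2` are prime. Both differences `2` are replaced here by almost all pairs `(h_0, h_1)` of integers up to `N = p_n`
taken from arbitrary residue classes `h_i ≡ a_i (mod q_i)`, where the moduli `q_0`, `q_1` may be as large as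
`N ^ (2 / 3 - ρ)`; then there are only `N ^ (1 / 3 + ρ)` possible values for each of them. Let `n` be large and let `K` be
an ARBITRARY set of integers `0 < k < n` (for instance the set of the `k` with `6 k - 1` prime). If the moduli are
divisible by all primes `≤ w`, the number of the `k ∈ K` for which `6 k - 1 + h_0` and `p_m + h_1`, `m = n - k`, are both
prime is

  `q_0 / φ(q_0) * q_1 / φ(q_1) * #{k ∈ K : (6 k - 1 + a_0, q_0) = 1, (p_m + a_1, q_1) = 1} / log ^ 2 N`

with an error of at most `η * q_0 / φ(q_0) * q_1 / φ(q_1) * (#K + N / log ^ A N) / log ^ 2 N`, for all pairs `(h_0, h_1)`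
in the two classes with the exception of at most `C log log N / (η ^ 2 w)` times their expected number.

For multiples `h_0`, `h_1` of `q_0`, `q_1` (`a = 0`), and a set `K` for which `6 k - 1` and `p_m` are prime and do not divide
`q_0` resp. `q_1`, the main term is `q_0 / φ(q_0) * q_1 / φ(q_1) * #K / log ^ 2 N`.

The moduli have to be regular: not divisible by a member of a set `D` (depending on `n`) of at most `log ^ c N` integers,
the RADICALS of which are larger than any given power of `log N`. There is NO condition on moduli with a radical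
`≤ log ^ B N`, for instance on the powers `≤ N ^ (2 / 3 - ρ)` of the product of the primes up to `K log log N`. Proof:
`Pool.Agent.H579.G.Dsp1` to `Dsp5`, `Pool.Agent.H579.R` (mean squares over the characters for the difference between the
primes and the sieve model, along arbitrary sequences, and the mean square of the sieve model in classes; Postnikov's
formula and Vinogradov's method for the conductors with a small radical, `H567/PP`).
-/

set_option autoImplicit false

open Finset

namespace Pool.Agent.Results.MP_ea8352_nt.PairsInLargeModuli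

/-- the radical of `d`: the product of the primes dividing `d` -/
def rad (d : ℕ) : ℕ := ∏ p ∈ d.primeFactors, p

/-- The `k`-th prime: `p 1 = 2`, `p 2 = 3`. -/
noncomputable def p (k : ℕ) : ℕ := Nat.nth Nat.Prime (k - 1)

open Classical in
/-- The `k ∈ K` such that `6 k - 1 + h_0` and `p_m + h_1` are prime, where `m = n - k`. -/
noncomputable def good (n : ℕ) (K : Finset ℕ) (h : Fin 2 → ℕ) : Finset ℕ :=
  K.filter (fun k => (6 * k - 1 + h 0).Prime ∧ (p (n - k) + h 1).Prime)

open Classical in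
/-- The `k ∈ K` such that `6 k - 1 + a_0` is prime to `q_0` and `p_m + a_1` is prime to `q_1`, where `m = n - k`. -/
noncomputable def loc (n : ℕ) (K : Finset ℕ) (q a : Fin 2 → ℕ) : Finset ℕ :=
  K.filter (fun k => (6 * k - 1 + a 0).Coprime (q 0) ∧ (p (n - k) + a 1).Coprime (q 1))

/-- `q_0 / φ(q_0) * q_1 / φ(q_1)` -/
noncomputable def dens (q : Fin 2 → ℕ) : ℝ := (q 0 : ℝ) / Nat.totient (q 0) * ((q 1 : ℝ) / Nat.totient (q 1))

open Classical in
/-- The pairs `1 ≤ h_i ≤ p_n`, `h_i ≡ a_i (mod q_i)`, for which the number of the `k ∈ K` with `6 k - 1 + h_0` and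
`p_{n - k} + h_1` prime differs by more than `η * dens q * Y / log ^ 2 p_n` from `dens q * #loc / log ^ 2 p_n`. -/
noncomputable def exceptional (η Y : ℝ) (n : ℕ) (K : Finset ℕ) (q a : Fin 2 → ℕ) : Finset (Fin 2 → ℕ) :=
  (Fintype.piFinset fun _ => Icc 1 (p n)).filter (fun h => (∀ i, h i ≡ a i [MOD q i]) ∧
    η * dens q * (Y / Real.log (p n) ^ 2) <
      |((good n K h).card : ℝ) - dens q * ((loc n K q a).card / Real.log (p n) ^ 2)|)

theorem nth_inj : Function.Injective (Nat.nth Nat.Prime) := Nat.nth_injective Nat.infinite_setOfPred_prime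

theorem nth_mono {a b : ℕ} (h : a ≤ b) : Nat.nth Nat.Prime a ≤ Nat.nth Nat.Prime b :=
  (Nat.nth_strictMono Nat.infinite_setOfPred_prime).monotone h

/-- the two sequences -/
noncomputable def F (n : ℕ) : Fin 2 → ℕ → ℕ := ![fun k => 6 * k - 1, fun k => p (n - k)]

open Pool.Agent.H579.G in
theorem exc_eq (η Y : ℝ) (n : ℕ) (K : Finset ℕ) (q a : Fin 2 → ℕ) :
    excN η Y (p n) K (F n) q a = exceptional η Y n K q a := by
  classical
  have e1 : den q = dens q := by
    unfold den dens
    rw [Fin.prod_univ_two]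
  have e2 : ∀ h : Fin 2 → ℕ, prN K (F n) h = good n K h := by
    intro h
    unfold prN good
    refine filter_congr fun k _ => ?_
    rw [Fin.forall_fin_two]
    rfl
  have e3 : cpN K (F n) q a = loc n K q a := by
    unfold cpN loc
    refine filter_congr fun k _ => ?_
    rw [Fin.forall_fin_two]
    rfl
  unfold excN exceptional
  simp only [e1, e2, e3]

/-- **Every large `n`, every set `K`, all regular moduli, all residue classes, almost all pairs of shifts.** -/
theorem result (A : ℕ) : ∃ C : ℝ, ∀ ρ : ℝ, 0 < ρ → ∃ c : ℕ, ∀ B : ℕ, ∃ n₀ : ℕ, ∀ n : ℕ, n₀ ≤ n →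
    ∃ D : Finset ℕ, (D.card : ℝ) ≤ Real.log (p n) ^ c ∧ (∀ d ∈ D, Real.log (p n) ^ B < (rad d : ℝ)) ∧
      ∀ q : Fin 2 → ℕ, (∀ i, 1 ≤ q i ∧ (q i : ℝ) ≤ (p n : ℝ) ^ (2 / 3 - ρ) ∧
        ((rad (q i) : ℝ) ≤ Real.log (p n) ^ B ∨ ∀ d ∈ D, ¬ d ∣ q i)) →
      ∀ w : ℕ, 1 ≤ w → (w : ℝ) ≤ Real.log (p n) → (∀ l : ℕ, l.Prime → l ≤ w → ∀ i, l ∣ q i) →
      ∀ a : Fin 2 → ℕ, ∀ K ⊆ Ioo 0 n, ∀ η : ℝ, 0 < η → η ≤ 1 →
        ((exceptional η (K.card + p n / Real.log (p n) ^ A) n K q a).card : ℝ) ≤
          C * Real.log (Real.log (p n)) / (η ^ 2 * w) * ((p n : ℝ) / q 0 * ((p n : ℝ) / q 1)) := by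
  classical
  obtain ⟨C, hC, h1⟩ := Pool.Agent.H579.R.sparse_natR 2 A (by norm_num)
  obtain ⟨n1, hn1⟩ := Pool.Agent.H579.G.six_le_nth
  refine ⟨C, fun ρ hρ => ?_⟩
  obtain ⟨c, h2⟩ := h1 ρ hρ
  refine ⟨c, fun B => ?_⟩
  obtain ⟨N₀, h3⟩ := h2 B
  refine ⟨N₀ + n1 + 3, fun n hn => ?_⟩
  have h6 : 6 * n ≤ p n := hn1 n (by omega)
  obtain ⟨D, hD1, hD2, hD3⟩ := h3 (p n) (by omega)
  refine ⟨D, hD1, hD2, fun q hq w hw1 hwL hwq a K hK η hη0 hη1 => ?_⟩
  have hp3 : (3 : ℝ) ≤ p n := by exact_mod_cast (by omega : 3 ≤ p n)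
  have hL0 : 0 ≤ Real.log (p n) := Real.log_nonneg (by linarith)
  have h7 := hD3 q (fun i => ⟨(hq i).1, (hq i).2.1,
    Pool.Agent.H579.R.reg_of_rad (hq i).1 hD2 (hq i).2.2⟩) w hw1 hwL hwq a K (F n)
    (by
      intro i k hk
      have := mem_Ioo.1 (hK hk)
      fin_cases i
      · exact mem_Icc.2 ⟨by show 1 ≤ 6 * k - 1; omega, by show 6 * k - 1 ≤ p n; omega⟩
      · exact mem_Icc.2 ⟨(Nat.prime_nth_prime _).one_le, nth_mono (by omega)⟩)
    (by
      intro i k hk k' hk' e
      have k1 := mem_Ioo.1 (hK (mem_coe.1 hk))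
      have k2 := mem_Ioo.1 (hK (mem_coe.1 hk'))
      fin_cases i
      · have e' : 6 * k - 1 = 6 * k' - 1 := e
        omega
      · have e' : Nat.nth Nat.Prime (n - k - 1) = Nat.nth Nat.Prime (n - k' - 1) := e
        have := nth_inj e'
        omega)
    (K.card + p n / Real.log (p n) ^ A)
    (by
      have : (0 : ℝ) ≤ p n / Real.log (p n) ^ A := by positivity
      linarith)
    (by
      have : (0 : ℝ) ≤ K.card := Nat.cast_nonneg _
      linarith)
    η hη0 hη1
  rw [exc_eq, Fin.prod_univ_two] at h7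
  exact h7

end Pool.Agent.Results.MP_ea8352_nt.PairsInLargeModuli
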