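import Pool.Agent.H531.IX.Fin1
import Pool.Agent.H531.IX.CNT
import Pool.Agent.H531.IX.CHN

set_option autoImplicit false

/-!
# Sums of two indices of twin-prime type: the number of the decompositions in the random sieve model

For every prime `q` a residue class `a q` modulo `q` is drawn uniformly and independently. The random primes are the
integers `v ≥ 3` which are, for all primes `q ≤ zBFT v`, not in the class `0` modulo `q` if `q ≤ (log v) ^ c`, and not in the
class `a q` modulo `q` if `q > (log v) ^ c`. This is the model of Banks, Ford and Tao (*Large prime gaps and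
probabilistic models*) in which the small primes sieve out the class `0` as they do for the true primes, `c > 1` is
arbitrary. `r_m` is the `m`-th random prime.

The theorem: almost surely, the number of the decompositions `n = k + m` with `6k - 1`, `6k + 1` and `r_m`, `r_m + 2` random
primes is asymptotic to `24 C₂² n / (log n) ^ 3` for `n → ∞` (through all integers), where `C₂` is the twin prime constant.
This is what one expects for the true primes: `6k ± 1` are prime with probability `12 C₂ / (log n) ^ 2`, and there are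
`2 C₂ n / log n` twins among the first `n` primes.

The condition on the index `m` of `r_m` depends on the number of ALL random primes below `r_m`. The proof: the index law
(`Pool.Agent.H531.IX.law`): for the random primes `p` in `(X, X2]`, `X2 ≤ 2X`, the proportion of those (with any local
conditions `p + h` random prime, `h ∈ H`) the index of which lies in a set `T` that is determined by the classes modulo the
primes up to the sieving limit of `X` is the density of `T` in short intervals, up to `1 ± ε` and `X ^ 0.99`, with an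
exceptional probability `exp (-X ^ 0.4)`. It is proved block by block (blocks of length `X ^ 0.45`) with the classes modulo the
few primes that begin to sieve between two blocks: they remove a random number of earlier random primes, whose
distribution is smooth on the scale `X ^ 0.004` (thinning and the central binomial coefficient), and Azuma's inequality.
-/

open MeasureTheory ProbabilityTheory Filter Topology

namespace Pool.Agent.Results.MP_ea8352_nt.TwinIndexAsymptotics

/-- `V m = ∏ (1 - 1 / q)` over the primes `q ≤ m` -/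
noncomputable def V (m : ℕ) : ℝ := ∏ q ∈ (Finset.range (m + 1)).filter Nat.Prime, (1 - 1 / (q : ℝ))

/-- the classes `a q` are independent, and `a q` is uniform on `0, …, q - 1` for every prime `q` -/
structure Model {Ω : Type} [MeasurableSpace Ω] (P : Measure Ω) (a : ℕ → Ω → ℕ) : Prop where
  measurable : ∀ q, Measurable (a q)
  independent : iIndepFun a P
  uniform : ∀ q, q.Prime → ∀ r < q, P.real {ω | a q ω = r} = 1 / q

/-- the sieving limit of Banks, Ford and Tao: the largest `m` with `∏_{q ≤ m} (1 - 1 / q)⁻¹ ≤ log n` -/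
noncomputable def zBFT (n : ℕ) : ℕ := sSup {m : ℕ | (V m)⁻¹ ≤ Real.log n}

open Classical in
/-- the set of the random primes of a sample -/
def R {Ω : Type} (c : ℝ) (a : ℕ → Ω → ℕ) (ω : Ω) : Set ℕ :=
  {v | 3 ≤ v ∧ ∀ q ≤ zBFT v, q.Prime → v % q ≠ if (q : ℝ) ≤ Real.log v ^ c then 0 else a q ω}

/-- the `m`-th element of `A` in increasing order, `m ≥ 1` -/
noncomputable def nthEl (A : Set ℕ) (m : ℕ) : ℕ := Nat.nth (fun u => u ∈ A) (m - 1)

/-- the number of the decompositions `n = k + m`, `k, m ≥ 1`, with `6k - 1`, `6k + 1` and `r_m + 2` in `A`, `r_m` the `m`-th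
element of `A` -/
noncomputable def number (A : Set ℕ) (n : ℕ) : ℕ :=
  {k : ℕ | 1 ≤ k ∧ k < n ∧ 6 * k - 1 ∈ A ∧ 6 * k + 1 ∈ A ∧ nthEl A (n - k) + 2 ∈ A}.ncard

/-- the partial products of the twin prime constant -/
noncomputable def partialTwin (x : ℕ) : ℝ :=
  ∏ p ∈ (Finset.range (x + 1)).filter (fun p => p.Prime ∧ p ≠ 2), (1 - 1 / ((p : ℝ) - 1) ^ 2)

theorem result :
    (∃ (Ω : Type) (_ : MeasurableSpace Ω) (P : Measure Ω) (a : ℕ → Ω → ℕ), Model P a) ∧
    ∃ C₂ : ℝ, 1 / 2 ≤ C₂ ∧ Tendsto partialTwin atTop (𝓝 C₂) ∧ ∀ c : ℝ, 1 < c →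
      ∀ (Ω : Type) [MeasurableSpace Ω] (P : Measure Ω) (a : ℕ → Ω → ℕ), Model P a →
        ∀ᵐ ω ∂P, (R c a ω).Infinite ∧
          Tendsto (fun n : ℕ => (number (R c a ω) n : ℝ) * Real.log n ^ 3 / n) atTop (𝓝 (24 * C₂ ^ 2)) := by
  classical
  obtain ⟨κ, hκ, hlim⟩ := Pool.Agent.T2H32.GB.C2_lim id monotone_id
  refine ⟨?_, κ, hκ, hlim, ?_⟩
  · obtain ⟨Ω, i, P, a, h⟩ := Pool.Agent.T2H32.BF.exists_model
    exact ⟨Ω, i, P, a, h.measurable, h.independent, h.uniform⟩
  · intro c hc Ω _ P a hmod
    have h : Pool.Agent.T2H32.BF.Model P a := ⟨hmod.measurable, hmod.independent, hmod.uniform⟩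
    have e : ∀ ω, Pool.Agent.H531.IX.RS Pool.Agent.T2H32.BF.z0 (Pool.Agent.H559.HY.WW c) (fun q => a q ω) = R c a ω := by
      intro ω
      ext v
      refine and_congr_right fun hv => forall_congr' fun q => forall_congr' fun hq => forall_congr' fun hp => ?_
      have h1 : q ≤ Pool.Agent.H559.HY.WW c v ↔ (q : ℝ) ≤ Real.log v ^ c := by
        unfold Pool.Agent.H559.HY.WW
        exact Nat.le_floor_iff (Real.rpow_nonneg (Real.log_natCast_nonneg v) c)
      by_cases h2 : q ≤ Pool.Agent.H559.HY.WW c v
      · rw [if_pos h2, if_pos (h1.1 h2)]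
      · rw [if_neg h2, if_neg (fun h3 => h2 (h1.2 h3))]
    filter_upwards [Pool.Agent.H531.IX.fin1 Pool.Agent.H531.IX.cnt Pool.Agent.H531.IX.chn c κ hc (by linarith) hlim
      Ω P a h, Pool.Agent.H531.IX.ae_inf Pool.Agent.H531.IX.cnt c hc Ω P a h] with ω hω hinf
    rw [e] at hω hinf
    exact ⟨hinf, hω⟩

end Pool.Agent.Results.MP_ea8352_nt.TwinIndexAsymptotics
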